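import Pool.Agent.TH684.SP.PSe
import Pool.Agent.H656R2.AK.TQPoly
import Pool.Agent.H656R2.AK.AKIn

/-!
# Exclusion and threshold gates for `PSPACE`-hard sets: the theorem
-/

set_option autoImplicit false

namespace Pool.Agent.TH684.SP

open Pool.Agent.NPC Pool.Agent.H579R2.Spt Pool.Agent.H251R5.PQ Pool.Agent.H623R2.PS
open Pool.Agent.TH684.EX Pool.Agent.TH684.LT

/-- **From exclusion to `P = PSPACE`.** -/
theorem p_eq_pspace_of_feasible {A L : Set (List Bool)} (hA : PSPACEHard A) (hL : InP L)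
    (h : Feasible (Exclude L A)) : ∀ L' : Set (List Bool), InPSPACE L' → InP L' := by
  classical
  obtain ⟨V, hV, hVL⟩ := hL
  obtain ⟨X, b, hX, h⟩ := h
  have hlam : NPC.Poly (fun q : ℕ × (ℕ × ℕ) => decide (V (bits q) = [true])) :=
    NPC.Poly.decide_eq ((PIso.poly_iff.2 hV).comp bits_poly) (NPC.Poly.const [true])
  have hXp : NPC.Poly (fun q : List (List Bool) × ℕ => X (bits q)) :=
    (poly_of_polyTime hX).comp bits_poly
  refine p_eq_pspace_of_exc hA hlam hXp (b := b) fun n => ?_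
  obtain ⟨m, a, hm, ha, h1⟩ := h n
  refine ⟨m, a, hm, ha, fun qs hqs hlen => ?_⟩
  obtain ⟨h2, h3⟩ := h1 qs hqs hlen
  refine ⟨h2, fun h4 => h3 ?_⟩
  rw [h4, hqs]
  unfold vec
  refine List.map_congr_left fun i _ => ?_
  exact decide_eq_decide.2 (hVL _).symm

/-- If some `PSPACE`-hard set is decided by one threshold gate then `P = PSPACE`. -/
theorem p_eq_pspace_of_gate {A : Set (List Bool)} (hA : PSPACEHard A) (h : OneThresholdGate A) :
    ∀ L : Set (List Bool), InPSPACE L → InP L := by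
  obtain ⟨b, X, hX, hex⟩ := exc_of_gate h
  exact p_eq_pspace_of_exc hA (par_poly (NPC.Poly.fst (NPC.Poly.snd NPC.Poly.id))
    (NPC.Poly.snd (NPC.Poly.snd NPC.Poly.id))) hX hex

/-- **`P = PSPACE`, exclusion and threshold gates.** -/
theorem pspace_tfae : List.TFAE
    [∀ L : Set (List Bool), InPSPACE L → InP L,
      ∃ A L : Set (List Bool), PSPACEHard A ∧ InP L ∧ Feasible (Exclude L A),
      ∃ A : Set (List Bool), PSPACEHard A ∧ Feasible (ExcludeCount A),
      ∃ A : Set (List Bool), PSPACEHard A ∧ CountQuestions A,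
      ∃ A : Set (List Bool), PSPACEHard A ∧ Feasible (NotOnly A),
      ∀ (A L : Set (List Bool)) (q : Polynomial ℕ), InPSPACE A → InP L →
        (∀ m ≥ 1, ∃ l ≤ q.eval m, vec L m l ≠ vec L m 0) →
        ∃ X : List Bool → ℕ, PolyTime (fun z => bits (X z)) ∧ ∀ qs : List (List Bool), qs ≠ [] →
          X (bits qs) ≤ q.eval qs.length ∧ Exclude L A qs (X (bits qs)),
      ∃ (A : Set (List Bool)) (k : ℕ), PSPACEHard A ∧ OnePolynomialGate k A,
      ∀ A : Set (List Bool), InPSPACE A → OneThresholdGate A] := by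
  classical
  tfae_have 1 → 6 := fun h A L q hA hL hq => excludable_of_inP (h A hA) hL q hq
  tfae_have 6 → 2 := fun h => by
    obtain ⟨X, hX, hX2⟩ := h (lang Pool.Agent.H656R2.AK.ArcKayles) Lunit Polynomial.X
      Pool.Agent.H656R2.AK.arcKayles_mem lunit_inP (fun m hm => ⟨m, by simp, by
      rw [vec_lunit, vec_lunit]
      intro h1
      have h2 := congrArg (fun l : List Bool => l.getD 0 false) h1
      change List.getD _ 0 false = List.getD _ 0 false at h2
      rw [List.getD_eq_getElem _ _ (by rw [List.length_map, List.length_range]; omega),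
        List.getD_eq_getElem _ _ (by rw [List.length_map, List.length_range]; omega),
        List.getElem_map, List.getElem_map, List.getElem_range, decide_eq_decide] at h2
      omega⟩)
    refine ⟨_, Lunit, Pool.Agent.H656R2.AK.arcKayles_hard, lunit_inP, ?_⟩
    -- lists with one member
    refine ⟨fun z => X (bits (dp z).1), 1, polyTime_bits ((poly_of_polyTime hX).comp
      (bits_poly.comp (NPC.Poly.fst dp_poly))), fun n => ⟨1, 0, by omega, by omega,
      fun qs hqs _ => ?_⟩⟩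
    have hne : qs ≠ [] := by rintro rfl; simp at hqs
    obtain ⟨h1, h2⟩ := hX2 qs hne
    beta_reduce
    rw [dp_bits]
    simp only [Polynomial.eval_X, hqs] at h1
    exact ⟨by simpa using h1.trans (by omega), h2⟩
  tfae_have 2 → 1 := fun ⟨A, L, hA, hL, h⟩ => p_eq_pspace_of_feasible hA hL h
  tfae_have 3 → 2 := fun ⟨A, hA, h⟩ => ⟨A, Lthr, hA, lthr_inP, h.mono exclude_of_count⟩
  tfae_have 5 → 2 := fun ⟨A, hA, h⟩ => ⟨A, Lunit, hA, lunit_inP, h.mono exclude_of_notOnly⟩
  tfae_have 1 → 3 := fun h => ⟨_, Pool.Agent.H656R2.AK.arcKayles_hard,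
    feasible_count (h _ Pool.Agent.H656R2.AK.arcKayles_mem)⟩
  tfae_have 1 → 5 := fun h => ⟨_, Pool.Agent.H656R2.AK.arcKayles_hard,
    feasible_notOnly (h _ Pool.Agent.H656R2.AK.arcKayles_mem)⟩
  tfae_have 4 → 3 := fun ⟨A, hA, h⟩ => ⟨A, hA, count_of_questions h⟩
  tfae_have 1 → 4 := fun h => ⟨_, Pool.Agent.H656R2.AK.arcKayles_hard,
    questions_of_inP (h _ Pool.Agent.H656R2.AK.arcKayles_mem)⟩
  tfae_have 1 → 8 := fun h A hA => gate_of_inP (h A hA)
  tfae_have 8 → 7 := fun h => ⟨_, 1, Pool.Agent.H656R2.AK.arcKayles_hard,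
    ptf_of_gate (h _ Pool.Agent.H656R2.AK.arcKayles_mem)⟩
  tfae_have 7 → 1 := fun ⟨A, k, h1, h2⟩ => p_eq_pspace_of_gate h1 (gate_of_ptf h2)
  tfae_finish

end Pool.Agent.TH684.SP
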