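import Pool.Agent.TH684.EX.Eng
import Pool.Agent.W901.FH.PSi
import Pool.Agent.TH684.LT.Thm

/-!
# Exclusion of one vector for a `PSPACE`-hard set gives `P = PSPACE`
-/

set_option autoImplicit false

namespace Pool.Agent.TH684.SP

open Pool.Agent.NPC Pool.Agent.H579R2.Spt Pool.Agent.H251R5.PQ Pool.Agent.W901.AT
open Pool.Agent.W903.GP (Sp)
open Pool.Agent.W920.LS (Hard inPSPACE_lang Ln code code_sp inP_of_cands hard_of_ps)
open Pool.Agent.W901.FH (hx hx_poly)
open Pool.Agent.TH684.EX (Exc Qu engine)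

/-- The label predicate of a function. -/
def LabS (f0 : List Bool → List Bool) (lam : ℕ × (ℕ × ℕ) → Bool) (q : Qu) : Prop :=
  lam (q.2.1, (hx q.2.2.1 q.2.2.2.1 q.2.2.2.2.2.1 ((f0 q.1).take q.2.2.2.2.1),
    q.2.2.2.2.2.2)) = true

theorem labS_sp {f0 : List Bool → List Bool} (hf0 : Sp f0) {lam : ℕ × (ℕ × ℕ) → Bool}
    (hlam : NPC.Poly lam) : PIso.InPSPACE (lang (LabS f0 lam)) := by
  have b1 : NPC.Poly (fun z : List Bool × Qu => z.2) := NPC.Poly.snd NPC.Poly.id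
  have ey : NPC.Poly (fun z : List Bool × Qu => z.1) := NPC.Poly.fst NPC.Poly.id
  have c1 := NPC.Poly.snd b1
  have em := NPC.Poly.fst c1
  have c2 := NPC.Poly.snd c1
  have eP := NPC.Poly.fst c2
  have c3 := NPC.Poly.snd c2
  have eF := NPC.Poly.fst c3
  have c4 := NPC.Poly.snd c3
  have ej := NPC.Poly.fst c4
  have c5 := NPC.Poly.snd c4
  have es := NPC.Poly.fst c5
  have ei := NPC.Poly.snd c5
  have hbit : NPC.Poly (fun z : List Bool × Qu =>
      lam (z.2.2.1, (hx z.2.2.2.1 z.2.2.2.2.1 z.2.2.2.2.2.2.1 (z.1.take z.2.2.2.2.2.1),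
        z.2.2.2.2.2.2.2))) :=
    hlam.comp (NPC.Poly.pair em (NPC.Poly.pair (hx_poly eP eF es (take_poly' ey ej)) ei))
  have h1 : Sp (fun q : Qu => f0 q.1) := hf0.comp (Sp.of_poly (NPC.Poly.fst NPC.Poly.id))
  have h2 := (Sp.pair h1 Sp.id).post hbit
  exact inPSPACE_lang ([], (0, (0, (0, (0, (0, 0)))))) h2 fun a => Iff.rfl

/-- **Candidate lists.** -/
theorem sp_cands0 {A : Set (List Bool)} (hA : Hard A) {lam : ℕ × (ℕ × ℕ) → Bool}
    (hlam : NPC.Poly lam) {b : ℕ} {X : List (List Bool) × ℕ → ℕ} (hX : NPC.Poly X)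
    (hex : Exc A lam b X) {f0 : List Bool → List Bool} (hf0 : Sp f0) (pp : Polynomial ℕ)
    (hlen : ∀ x, (f0 x).length ≤ pp.eval x.length) :
    ∃ G : List Bool → List (List Bool), NPC.Poly G ∧ ∀ x, f0 x ∈ G x := by
  obtain ⟨f, hf, hfA⟩ := hA (lang (LabS f0 lam)) (labS_sp hf0 hlam)
  have hqfp : NPC.Poly (fun q : Qu => f (bits q)) := (PIso.poly_iff.2 hf).comp bits_poly
  obtain ⟨G, hG, hG2⟩ := engine hX hex hqfp pp
  refine ⟨G, hG, fun x => hG2 x (f0 x) (hlen x) ?_⟩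
  intro m P F j s i
  rw [← hfA, bits_mem_lang]
  exact Iff.rfl

/-- **Candidate lists for functions on data.** -/
theorem sp_cands1 {A : Set (List Bool)} (hA : Hard A) {lam : ℕ × (ℕ × ℕ) → Bool}
    (hlam : NPC.Poly lam) {b : ℕ} {X : List (List Bool) × ℕ → ℕ} (hX : NPC.Poly X)
    (hex : Exc A lam b X)
    {α β : Type} [TEnc α] [TDec α] [TEnc β] [TDec β] (a0 : α) (b0 : β) {F : α → β} (hF : Sp F) :
    ∃ G : α → List β, NPC.Poly G ∧ ∀ a, F a ∈ G a := by
  have h1 : NPC.Poly (fun z : List Bool => (unbits α z).getD a0) :=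
    NPC.Poly.optGetD poly_unbits (NPC.Poly.const a0)
  have h2 : Sp (fun z : List Bool => bits (F ((unbits α z).getD a0))) :=
    (hF.comp (Sp.of_poly h1)).post bits_poly
  obtain ⟨p, hp⟩ := h2.sz_le
  obtain ⟨G, hG, hG2⟩ := sp_cands0 hA hlam hX hex h2
    (p.comp (Polynomial.C 4 * Polynomial.X + 1))
    (fun x => by
      have e1 := hp x
      have e2 := sz_listBool_ge (bits (F ((unbits α x).getD a0)))
      have e3 := eval_mono p (sz_listBool_le x)
      rw [Polynomial.eval_comp]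
      simp only [Polynomial.eval_add, Polynomial.eval_mul, Polynomial.eval_C, Polynomial.eval_X,
        Polynomial.eval_one]
      omega)
  refine ⟨fun a => (G (bits a)).map fun y => (unbits β y).getD b0, ?_, fun a => ?_⟩
  · refine NPC.Poly.map (F := fun _ y => (unbits β y).getD b0) (hG.comp bits_poly) ?_
    exact NPC.Poly.optGetD (poly_unbits.comp (NPC.Poly.snd NPC.Poly.id)) (NPC.Poly.const b0)
  · refine List.mem_map.2 ⟨_, hG2 (bits a), ?_⟩
    simp only [unbits_bits, Option.getD_some]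

/-- **Exclusion of one vector of an explicit family for a `PSPACE`-hard set gives
`P = PSPACE`.** -/
theorem p_eq_pspace_of_exc {A : Set (List Bool)}
    (hA : Pool.Agent.H623R2.PS.PSPACEHard A) {lam : ℕ × (ℕ × ℕ) → Bool}
    (hlam : NPC.Poly lam) {b : ℕ} {X : List (List Bool) × ℕ → ℕ} (hX : NPC.Poly X)
    (hex : Exc A lam b X) :
    ∀ L : Set (List Bool), Pool.Agent.H623R2.PS.InPSPACE L → InP L := fun L hL => by
  obtain ⟨G, hG, hG2⟩ := sp_cands1 (hard_of_ps hA) hlam hX hex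
    (((0, [], [], []), (0, [])) : Ln) (0 : ℕ) code_sp
  exact inP_of_cands hG hG2 hL

end Pool.Agent.TH684.SP
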